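import Mathlib
import Pool.Agent.Lib.MP_239067_co.Pole.FinalExact
import Pool.Agent.Lib.MP_239067_co.Pole.K4.D5

/-!
A cubic graph with a nowhere-zero 17/4-flow that is not covered by four perfect matchings.
-/

set_option autoImplicit false
set_option linter.all false

open Finset BigOperators

namespace Pool.Agent.Results.MP_239067_co.FlowSeventeenQuarters

open Pool.Agent.Lib.MP_239067_co.Pole

/-- Loopless cubic multigraph on `Fin n` with edges `Fin m`, edge `e` joining `s e` and `t e`. -/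
def LooplessCubic {n m : ℕ} (s t : Fin m → Fin n) : Prop :=
  (∀ e, s e ≠ t e) ∧
    ∀ v : Fin n, (Finset.univ.filter (fun e => s e = v)).card
      + (Finset.univ.filter (fun e => t e = v)).card = 3

/-- There is a nowhere-zero `r`-flow: values `1 ≤ |f e| ≤ r - 1`, Kirchhoff law at each vertex. -/
def HasFlow {n m : ℕ} (s t : Fin m → Fin n) (r : ℝ) : Prop :=
  ∃ f : Fin m → ℝ, (∀ e, 1 ≤ |f e| ∧ |f e| ≤ r - 1) ∧
    ∀ v : Fin n, ∑ e ∈ Finset.univ.filter (fun e => s e = v), f e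
      = ∑ e ∈ Finset.univ.filter (fun e => t e = v), f e

/-- Four perfect matchings (possibly repeated) cover all edges. -/
def FourCover {n m : ℕ} (s t : Fin m → Fin n) : Prop :=
  ∃ M : Fin 4 → Finset (Fin m),
    (∀ (i : Fin 4) (v : Fin n), ((M i).filter (fun e => s e = v ∨ t e = v)).card = 1) ∧
      ∀ e : Fin m, ∃ i : Fin 4, e ∈ M i

theorem real4 : Real (4 * (4 : ℕ) + 1) (4 : ℕ)
    (fun i : Fin 0 => ev 4 0 (([] : List LF).getD i.val 0)) (fun _ => False) := by
  have h := K4.n142.closed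
  have e1 : ev 4 0 ((0, 0, 17) : LF) = 4 * ((4 : ℕ) : ℤ) + 1 := by norm_num [ev]
  have e2 : ev 4 0 ((0, 0, 4) : LF) = ((4 : ℕ) : ℤ) := by norm_num [ev]
  rw [e1, e2] at h
  exact h

theorem not_all : ¬ ∀ (n m : ℕ) (s t : Fin m → Fin n), LooplessCubic s t → HasFlow s t (17 / 4) →
    FourCover s t := by
  intro hQ
  refine closed_contra_exact (k := 4) (by norm_num) (fun n m s t h1 h2 h3 => ?_) real4
  refine hQ n m s t ⟨h1, h2⟩ ?_
  have e : (4 + 1 / ((4 : ℕ) : ℝ)) = 17 / 4 := by norm_num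
  rw [e] at h3
  exact h3

theorem result :
    (∃ (n m : ℕ) (s t : Fin m → Fin n), LooplessCubic s t ∧ HasFlow s t (17 / 4) ∧
      ¬ FourCover s t) ∧
    ∀ ε : ℝ, (∀ (n m : ℕ) (s t : Fin m → Fin n), LooplessCubic s t →
        (∃ r : ℝ, r < 4 + ε ∧ HasFlow s t r) → FourCover s t) → ε ≤ 1 / 4 := by
  have h1 : ∃ (n m : ℕ) (s t : Fin m → Fin n), LooplessCubic s t ∧ HasFlow s t (17 / 4) ∧
      ¬ FourCover s t := by
    by_contra h
    push Not at h
    exact not_all h
  refine ⟨h1, fun ε h => ?_⟩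
  obtain ⟨n, m, s, t, a, b, c⟩ := h1
  by_contra hε
  rw [not_le] at hε
  exact c (h n m s t a ⟨17 / 4, by linarith, b⟩)

end Pool.Agent.Results.MP_239067_co.FlowSeventeenQuarters
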