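import Mathlib
import Pool.Agent.Lib.MP_239067_co.NTC.KMain
import Pool.Agent.Lib.MP_239067_co.NTC.FMain

/-!
A cubic graph with a nowhere-zero `r`-flow, `r` close to `4`: nearly 3-edge-colourable, and four nearly perfect matchings cover all edges; the order of the bounds is right.
-/

set_option autoImplicit false

open Finset

namespace Pool.Agent.Results.MP_239067_co.NearThreeColourable

/-- Loopless cubic multigraph on `Fin n` with edges `Fin m`, edge `e` joining `s e` and `t e`. -/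
def LooplessCubic {n m : ℕ} (s t : Fin m → Fin n) : Prop :=
  (∀ e, s e ≠ t e) ∧
    ∀ v : Fin n, (Finset.univ.filter (fun e => s e = v)).card
      + (Finset.univ.filter (fun e => t e = v)).card = 3

/-- There is a nowhere-zero `r`-flow: values `1 ≤ |f e| ≤ r - 1`, Kirchhoff law at each vertex. -/
def HasFlow {n m : ℕ} (s t : Fin m → Fin n) (r : ℝ) : Prop :=
  ∃ f : Fin m → ℝ, (∀ e, 1 ≤ |f e| ∧ |f e| ≤ r - 1) ∧
    ∀ v : Fin n, ∑ e ∈ Finset.univ.filter (fun e => s e = v), f e
      = ∑ e ∈ Finset.univ.filter (fun e => t e = v), f e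

/-- Every vertex is on at most one edge of `B`. -/
def IsMatching {n m : ℕ} (s t : Fin m → Fin n) (B : Finset (Fin m)) : Prop :=
  ∀ v : Fin n, (B.filter (fun e => s e = v ∨ t e = v)).card ≤ 1

/-- Every vertex is on an even number of edges of `C`. -/
def IsEvenSubgraph {n m : ℕ} (s t : Fin m → Fin n) (C : Finset (Fin m)) : Prop :=
  ∀ v : Fin n, Even (C.filter (fun e => s e = v ∨ t e = v)).card

/-- (1) For `4 ≤ r < 8` a cubic graph on `n` vertices with a nowhere-zero `r`-flow has a matching `B`, `|B| ≤ (1 - 4 / r) n`, off which it is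
the union of two even subgraphs; three disjoint matchings with at most `2 (1 - 4 / r) n` edges outside; four matchings which contain all
edges, each missing at most `8 (1 - 4 / r) n` vertices. (2) For all `k ≥ 1` and `T` some cubic graph on `(8 k + 4) T` vertices with a
nowhere-zero `(4 + 1 / k)`-flow has at least `T` edges outside the union of any two even subgraphs and outside any three disjoint matchings. -/
theorem result :
    (∀ {n m : ℕ} {s t : Fin m → Fin n}, LooplessCubic s t → ∀ r : ℝ, 4 ≤ r → r < 8 → HasFlow s t r →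
      ∃ B C₁ C₂ : Finset (Fin m), ∃ M : Fin 3 → Finset (Fin m), ∃ N : Fin 4 → Finset (Fin m),
        IsMatching s t B ∧ (B.card : ℝ) ≤ (1 - 4 / r) * n ∧
        IsEvenSubgraph s t C₁ ∧ IsEvenSubgraph s t C₂ ∧ C₁ ∪ C₂ = Bᶜ ∧
        (∀ i, IsMatching s t (M i)) ∧ (∀ i j, i ≠ j → Disjoint (M i) (M j)) ∧
        ((Finset.univ.filter (fun e => ∀ i, e ∉ M i)).card : ℝ) ≤ 2 * (1 - 4 / r) * n ∧
        (∀ i, IsMatching s t (N i)) ∧ (∀ e, ∃ i, e ∈ N i) ∧
        ∀ i, (n : ℝ) ≤ 2 * (N i).card + 8 * (1 - 4 / r) * n) ∧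
    ∀ k T : ℕ, 1 ≤ k → ∃ (m : ℕ) (s t : Fin m → Fin ((8 * k + 4) * T)),
      LooplessCubic s t ∧ HasFlow s t (4 + 1 / (k : ℝ)) ∧
      (∀ C₁ C₂ : Finset (Fin m), IsEvenSubgraph s t C₁ → IsEvenSubgraph s t C₂ → T ≤ (C₁ ∪ C₂)ᶜ.card) ∧
      ∀ M : Fin 3 → Finset (Fin m), (∀ i, IsMatching s t (M i)) → (∀ i j, i ≠ j → Disjoint (M i) (M j)) →
        T ≤ (Finset.univ.filter (fun e => ∀ i, e ∉ M i)).card := by
  refine ⟨fun {n m s t} hG r h4 h8 hf => ?_, fun k T hk => ?_⟩
  · obtain ⟨f, hb, hk⟩ := hf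
    exact Pool.Agent.Lib.MP_239067_co.NTC.main4 (s := s) (t := t) hG h4 h8 hb hk
  · exact Pool.Agent.Lib.MP_239067_co.NTC.lower k T hk

end Pool.Agent.Results.MP_239067_co.NearThreeColourable
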