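import Mathlib
import Pool.Agent.Lib.MP_239067_co.PMX.Core
import Pool.Agent.Lib.MP_239067_co.TwoCirc.Final

/-!
A cubic multigraph with a 2-factor that consists of two circuits joined by `r = 3 (mod 4)` edges
has four perfect matchings that cover every edge of the 2-factor exactly once and every other edge
exactly twice.
-/

set_option autoImplicit false

open Finset

namespace Pool.Agent.Results.MP_239067_co.TwoCircuitFactor

/-- Loopless cubic multigraph on `Fin n` with edges `Fin m`, edge `e` joining `s e` and `t e`. -/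
def LooplessCubic {n m : ℕ} (s t : Fin m → Fin n) : Prop :=
  (∀ e, s e ≠ t e) ∧
    ∀ v : Fin n, (Finset.univ.filter (fun e => s e = v)).card
      + (Finset.univ.filter (fun e => t e = v)).card = 3

/-- The set `F` of edges is a 2-factor that consists of exactly two circuits, one with vertex set
`A` and the other with vertex set `Aᶜ`: every vertex is on exactly two edges of `F`, no edge of `F`
joins `A` to its complement, and neither `A` nor `Aᶜ` has a proper nonempty subset that no edge
of `F` leaves. -/
def TwoCircuits {n m : ℕ} (s t : Fin m → Fin n) (F : Finset (Fin m)) (A : Finset (Fin n)) :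
    Prop :=
  (∀ v, (F.filter (fun e => s e = v ∨ t e = v)).card = 2) ∧
  (∀ e ∈ F, s e ∈ A ↔ t e ∈ A) ∧
  (∀ X ⊆ A, X.Nonempty → (∀ e ∈ F, s e ∈ X ↔ t e ∈ X) → X = A) ∧
  (∀ X ⊆ Aᶜ, X.Nonempty → (∀ e ∈ F, s e ∈ X ↔ t e ∈ X) → X = Aᶜ)

/-- The number of edges between `A` and its complement. -/
def cutCard {n m : ℕ} (s t : Fin m → Fin n) (A : Finset (Fin n)) : ℕ :=
  (univ.filter (fun e => ¬ (s e ∈ A ↔ t e ∈ A))).card

/-- A set of edges with exactly one edge at every vertex. -/
def PerfectMatching {n m : ℕ} (s t : Fin m → Fin n) (M : Finset (Fin m)) : Prop :=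
  ∀ v : Fin n, (M.filter (fun e => s e = v ∨ t e = v)).card = 1

/-- An even subgraph: a set of edges with an even number of edges at every vertex. -/
def EvenSubgraph {n m : ℕ} (s t : Fin m → Fin n) (C : Finset (Fin m)) : Prop :=
  ∀ v : Fin n, Even (C.filter (fun e => s e = v ∨ t e = v)).card

theorem core : Pool.Agent.Lib.MP_239067_co.TwoCirc.Core := by
  intro n σ τ hinv hfix A hA h1 h2 hr
  exact Pool.Agent.MP239067.core σ τ hinv hfix A hA h1 h2 hr

theorem result {n m : ℕ} (s t : Fin m → Fin n) (hG : LooplessCubic s t)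
    (F : Finset (Fin m)) (A : Finset (Fin n)) (hF : TwoCircuits s t F A)
    (hr : cutCard s t A % 4 = 3) :
    (∃ M : Fin 4 → Finset (Fin m),
      (∀ i, PerfectMatching s t (M i)) ∧
      (∀ e ∈ F, (univ.filter (fun i => e ∈ M i)).card = 1) ∧
      (∀ e, e ∉ F → (univ.filter (fun i => e ∈ M i)).card = 2)) ∧
    (∃ C : Fin 5 → Finset (Fin m),
      C 0 = F ∧ (∀ i, EvenSubgraph s t (C i)) ∧
      ∀ e, (univ.filter (fun i => e ∈ C i)).card = 2) := by
  classical
  obtain ⟨hl, hc⟩ := hG
  obtain ⟨hF2, hA, h1, h2⟩ := hF
  obtain ⟨M, hM, hM1, hM2⟩ := Pool.Agent.Lib.MP_239067_co.TwoCirc.main core s t hl hc F hF2 A hA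
    h1 h2 hr
  refine ⟨⟨M, hM, hM1, hM2⟩, Fin.cons F (fun i => symmDiff (M i) Fᶜ), rfl, ?_, ?_⟩
  · -- even
    have hinc : ∀ v : Fin n, (univ.filter (fun e => s e = v ∨ t e = v)).card = 3 :=
      fun v => Pool.Agent.Lib.MP_239067_co.TwoCirc.card_inc hl hc v
    have hFc : ∀ v : Fin n, ((Fᶜ).filter (fun e => s e = v ∨ t e = v)).card = 1 := by
      intro v
      have h := hinc v
      have h' := hF2 v
      have e1 : (univ.filter (fun e => s e = v ∨ t e = v)) =
          (F.filter (fun e => s e = v ∨ t e = v)) ∪ ((Fᶜ).filter (fun e => s e = v ∨ t e = v)) := by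
        rw [← filter_union, union_compl]
      rw [e1, card_union_of_disjoint (disjoint_filter_filter disjoint_compl_right)] at h
      omega
    intro i
    refine Fin.cases ?_ ?_ i
    · intro v
      rw [Fin.cons_zero, hF2 v]
      exact ⟨1, rfl⟩
    · intro j v
      rw [Fin.cons_succ]
      have ha := hM j v
      have hb := hFc v
      have e2 : (symmDiff (M j) Fᶜ).filter (fun e => s e = v ∨ t e = v)
          = symmDiff ((M j).filter (fun e => s e = v ∨ t e = v))
            ((Fᶜ).filter (fun e => s e = v ∨ t e = v)) := by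
        ext e
        simp only [mem_filter, mem_symmDiff, mem_compl]
        tauto
      rw [e2]
      obtain ⟨a, ha'⟩ := card_eq_one.1 ha
      obtain ⟨b, hb'⟩ := card_eq_one.1 hb
      rw [ha', hb']
      by_cases hab : a = b
      · rw [hab, symmDiff_self]
        exact ⟨0, rfl⟩
      · have e3 : symmDiff ({a} : Finset (Fin m)) {b} = {a, b} := by
          ext e
          simp only [mem_symmDiff, mem_singleton, mem_insert]
          constructor
          · rintro (⟨h, _⟩ | ⟨h, _⟩)
            · exact Or.inl h
            · exact Or.inr h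
          · rintro (h | h)
            · exact Or.inl ⟨h, fun h' => hab (h.symm.trans h')⟩
            · exact Or.inr ⟨h, fun h' => hab (h'.symm.trans h)⟩
        rw [e3, card_pair hab]
        exact ⟨1, rfl⟩
  · -- every edge twice
    intro e
    have e4 : (univ.filter (fun i : Fin 5 =>
        e ∈ (Fin.cons F (fun i => symmDiff (M i) Fᶜ) : Fin 5 → Finset (Fin m)) i)).card
        = (if e ∈ F then 1 else 0) + (univ.filter (fun i : Fin 4 => e ∈ symmDiff (M i) Fᶜ)).card := by
      rw [card_filter, Fin.sum_univ_succ, card_filter]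
      simp only [Fin.cons_zero, Fin.cons_succ]
    rw [e4]
    by_cases he : e ∈ F
    · rw [if_pos he]
      have := hM1 e he
      have e5 : (univ.filter (fun i : Fin 4 => e ∈ symmDiff (M i) Fᶜ))
          = univ.filter (fun i => e ∈ M i) := by
        ext i
        simp only [mem_filter, mem_univ, true_and, mem_symmDiff, mem_compl]
        tauto
      rw [e5, this]
    · rw [if_neg he]
      have := hM2 e he
      have e5 : (univ.filter (fun i : Fin 4 => e ∈ symmDiff (M i) Fᶜ))
          = univ.filter (fun i => ¬ e ∈ M i) := by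
        ext i
        simp only [mem_filter, mem_univ, true_and, mem_symmDiff, mem_compl]
        tauto
      rw [e5]
      have h6 := Finset.card_filter_add_card_filter_not (s := (univ : Finset (Fin 4)))
        (fun i => e ∈ M i)
      rw [this] at h6
      simp only [card_univ, Fintype.card_fin] at h6
      omega

end Pool.Agent.Results.MP_239067_co.TwoCircuitFactor
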